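import Pool.Agent.MP_6a4325_al.H62.Spec

/-!
The bound in a finite dimensional solution.
-/

namespace Pool.Agent.MP_6a4325_al.H53

open H62 Matrix

lemma eigen {ι K V : Type} [Field K] [AddCommGroup V] [Module K V] [Module.Finite K V]
    (A : ι → Module.End K V) (hA : ∀ i j, Commute (A i) (A j)) (Λ : ι → List K) {v : V}
    (v0 : v ≠ 0) (hv : ∀ i, ((Λ i).map fun a => A i - a • 1).prod v = 0) :
    ∃ u ≠ 0, ∀ i, ∃ a ∈ Λ i, A i u = a • u := by
  have hc : ∀ i j (L : List K), Commute (A i) (L.map fun a => A j - a • 1).prod := fun i j L =>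
    Commute.list_prod_right _ _ fun x hx => by
      obtain ⟨a, -, rfl⟩ := List.mem_map.1 hx
      exact (hA i j).sub_right ((Commute.one_right _).smul_right a)
  obtain ⟨U, ⟨U0, U1, U2⟩, hU⟩ := WellFounded.has_min (wellFounded_lt (α := Submodule K V))
    {U | (∃ u ∈ U, u ≠ 0) ∧ (∀ i, ∀ u ∈ U, A i u ∈ U) ∧
      ∀ i, ∀ u ∈ U, ((Λ i).map fun a => A i - a • 1).prod u = 0}
    ⟨⨅ i, LinearMap.ker ((Λ i).map fun a => A i - a • 1).prod, ⟨v, by simpa using hv, v0⟩,
      fun i u hu => by
        simp only [Submodule.mem_iInf, LinearMap.mem_ker] at hu ⊢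
        intro j
        rw [← Module.End.mul_apply, ← (hc i j _).eq, Module.End.mul_apply, hu, map_zero],
      fun i u hu => by
        simp only [Submodule.mem_iInf, LinearMap.mem_ker] at hu
        exact hu i⟩
  obtain ⟨u, hu, u0⟩ := U0
  refine ⟨u, u0, fun i => ?_⟩
  have key : ∀ L : List K, ∀ w ∈ U, w ≠ 0 → (L.map fun a => A i - a • 1).prod w = 0 →
      ∃ a ∈ L, ∃ w ∈ U, w ≠ 0 ∧ A i w = a • w := fun L => by
    induction L with
    | nil => exact fun w _ w0 h => absurd h w0
    | cons a L ih =>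
      intro w hw w0 h
      by_cases h1 : (A i - a • 1 : Module.End K V) w = 0
      · exact ⟨a, List.mem_cons_self, w, hw, w0, by simpa [sub_eq_zero] using h1⟩
      · obtain ⟨b, hb, h2⟩ := ih _ (sub_mem (U1 i w hw) (U.smul_mem a hw)) h1 (by
          rw [List.map_cons, List.prod_cons,
            ((hc i i L).sub_left ((Commute.one_left _).smul_left a)).eq] at h
          exact h)
        exact ⟨b, List.mem_cons_of_mem _ hb, h2⟩
  obtain ⟨a, ha, w, hw, w0, h⟩ := key _ u hu u0 (U2 i u hu)
  refine ⟨a, ha, by_contra fun hn => hU (U ⊓ LinearMap.ker (A i - a • 1))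
    ⟨⟨w, ⟨hw, by simp [h]⟩, w0⟩, fun j x hx => ⟨U1 j x hx.1, ?_⟩, fun j x hx => U2 j x hx.1⟩
    (lt_of_le_of_ne inf_le_left fun e => hn ?_)⟩
  · have h2 : (A i - a • 1 : Module.End K V) x = 0 := hx.2
    change (A i - a • 1 : Module.End K V) (A j x) = 0
    rw [← Module.End.mul_apply, ← ((hA j i).sub_right ((Commute.one_right _).smul_right a)).eq,
      Module.End.mul_apply, h2, map_zero]
  · have := (e.symm ▸ hu : u ∈ U ⊓ LinearMap.ker (A i - a • 1)).2
    simpa [sub_eq_zero] using this

variable {G : Type} [Group G] (s : St G)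

/-- Conjugation. -/
def cj (c : s.H) : s.T →* s.T where
  toFun t := ⟨c * t * c⁻¹, s.conj c c.2 t t.2⟩
  map_one' := Subtype.ext (by simp)
  map_mul' a b := Subtype.ext (by simp [mul_assoc])

lemma comm (a b : s.T) : a * b = b * a := s.inj (by rw [map_mul, map_mul, mul_comm])

lemma cj_mul (c : s.H) (t a : s.T) : cj s (c * ⟨t, s.le t.2⟩) a = cj s c a := by
  have : (t : G) * a = a * t := congrArg Subtype.val (comm s t a)
  refine Subtype.ext ?_
  change (c * t : G) * a * (c * t : G)⁻¹ = c * a * (c : G)⁻¹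
  rw [mul_assoc (c : G), this]
  group

/-- The annihilating element. -/
noncomputable def pt (t : s.T) (L : List s.H) : MonoidAlgebra ℚ G :=
  (L.map fun r => MonoidAlgebra.single (t : G) (1 : ℚ) -
    MonoidAlgebra.single 1 (s.θ (cj s r t) : ℚ)).prod

/-- The pairing with the function. -/
noncomputable def ph (g : G) : MonoidAlgebra ℚ G →ₗ[ℚ] ℚ :=
  Finsupp.linearCombination ℚ (fun h => s.f (g * h)) ∘ₗ (MonoidAlgebra.coeffLinearEquiv ℚ).toLinearMap

lemma ph_single (g h : G) (c : ℚ) : ph s g (MonoidAlgebra.single h c) = c * s.f (g * h) := by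
  simp [ph]

lemma ph_mul (g h : G) (c : ℚ) (x : MonoidAlgebra ℚ G) :
    ph s g (MonoidAlgebra.single h c * x) = c * ph s (g * h) x := by
  induction x using MonoidAlgebra.induction_linear with
  | zero => simp
  | add a b ha hb => rw [mul_add, map_add, map_add, ha, hb, mul_add]
  | single k e => simp [MonoidAlgebra.single_mul_single, ph_single, mul_assoc]

lemma ph_pt (t : s.T) (L : List s.H) (g : s.H) :
    ph s g (pt s t L) = (L.map fun r => (s.θ (cj s g t) : ℚ) - s.θ (cj s r t)).prod * s.f g := by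
  induction L generalizing g with
  | nil => simpa [pt, MonoidAlgebra.one_def] using ph_single s g 1 1
  | cons r L ih =>
    have h1 := ih (g * ⟨t, s.le t.2⟩)
    have h2 := s.equi (cj s g t) g
    rw [show (cj s g t : G) * g = g * t from inv_mul_cancel_right _ _] at h2
    rw [cj_mul, Subgroup.coe_mul, h2] at h1
    have h3 := ih g
    rw [pt] at h1 h3
    rw [pt, List.map_cons, List.prod_cons, sub_mul, map_sub, ph_mul, ph_mul, mul_one, h1, h3,
      List.map_cons, List.prod_cons]
    ring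

lemma supp_pt (t : s.T) (L : List s.H) (g : G) (hg : g ∉ s.H) : (pt s t L).coeff g = 0 := by
  induction L generalizing g with
  | nil => exact Finsupp.single_eq_of_ne fun e => hg (e ▸ one_mem _)
  | cons r L ih =>
    have h1 := ih ((t : G)⁻¹ * g) fun h => hg (by simpa using mul_mem (s.le t.2) h)
    have h2 := ih g hg
    rw [pt] at h1 h2
    simp [pt, sub_mul, MonoidAlgebra.coeff_single_mul_apply, h1, h2]

lemma pt_mem (t : s.T) {L : List s.H} (hL : ∀ g : s.H, ∃ r ∈ L, cj s g = cj s r) :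
    pt s t L ∈ s.ann := by
  refine ⟨fun g hg => by_contra fun h => Finsupp.mem_support_iff.1 hg (supp_pt s t L g h),
    fun g => ?_⟩
  by_cases hg : g ∈ s.H
  · obtain ⟨r, hr, e⟩ := hL ⟨g, hg⟩
    have := ph_pt s t L ⟨g, hg⟩
    rw [List.prod_eq_zero (List.mem_map.2 ⟨r, hr, by rw [e, sub_self]⟩), zero_mul] at this
    exact this
  · refine Finset.sum_eq_zero fun h hh => ?_
    exact mul_eq_zero_of_right _ (s.off _ fun k => Finsupp.mem_support_iff.1 hh
      (supp_pt s t L h fun k2 => hg (by simpa using mul_mem k (inv_mem k2))))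

theorem bound : SBound := by
  intro G _ s K _ _ n ρ v v0 hv P hP hx
  classical
  have := s.fin
  have : Fintype (s.H ⧸ s.T.subgroupOf s.H) := Fintype.ofFinite _
  let L : List s.H := (Finset.univ : Finset (s.H ⧸ s.T.subgroupOf s.H)).toList.map Quotient.out
  have hL : ∀ g : s.H, ∃ r ∈ L, cj s g = cj s r := fun g => by
    obtain ⟨t, ht⟩ := QuotientGroup.mk_out_eq_mul (s.T.subgroupOf s.H) g
    refine ⟨_, List.mem_map.2 ⟨(g : s.H ⧸ s.T.subgroupOf s.H), by simp, rfl⟩, ?_⟩
    rw [ht]
    exact MonoidHom.ext fun a => (cj_mul s g ⟨t, t.2⟩ a).symm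
  let η : s.H → s.T →* K := fun r =>
    ((algebraMap ℚ K : ℚ →* K).comp (Units.coeHom ℚ)).comp (s.θ.comp (cj s r))
  obtain ⟨u, u0, hu⟩ := eigen (fun t : s.T => toLin' (ρ t)) (fun a b => by
      have : (a : G) * b = b * a := congrArg Subtype.val (comm s a b)
      rw [Commute, SemiconjBy, Module.End.mul_eq_comp, Module.End.mul_eq_comp, ← toLin'_mul,
        ← toLin'_mul, ← map_mul, ← map_mul, this]) (fun t => L.map fun r => η r t) v0 fun t => by
    rw [← hv _ (pt_mem s t hL), pt, map_list_prod, ← toLinAlgEquiv'_apply,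
      map_list_prod, List.map_map (l := L), List.map_map (l := L), List.map_map (l := L)]
    refine congrArg (fun M : List (Module.End K (Fin n → K)) => M.prod v)
      (List.map_congr_left fun r _ => ?_)
    simp [η, Algebra.smul_def, IsScalarTower.algebraMap_apply ℚ K (Matrix (Fin n) (Fin n) K)]
    rfl
  let S : s.H → Subgroup s.T := fun r =>
    { carrier := {t | ρ t *ᵥ u = η r t • u}
      one_mem' := by simp
      mul_mem' := fun {a b} ha hb => by
        simp only [Set.mem_ofPred_eq] at *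
        rw [Subgroup.coe_mul, map_mul, ← mulVec_mulVec, hb, mulVec_smul, ha, smul_smul, map_mul,
          mul_comm]
      inv_mem' := fun {a} ha => by
        simp only [Set.mem_ofPred_eq] at *
        have h1 : η r a⁻¹ * η r a = 1 := by rw [← map_mul, inv_mul_cancel, map_one]
        have h2 := congrArg (fun w => η r a⁻¹ • (ρ (a⁻¹ : s.T) *ᵥ w)) ha
        simp only [mulVec_mulVec, ← map_mul, mulVec_smul, smul_smul, h1, one_smul] at h2
        rw [← h2]
        simp }
  obtain ⟨r, -, hr⟩ := Subgroup.exists_finiteIndex_of_leftCoset_cover (s := L.toFinset) (H := S)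
    (g := fun _ => 1) (Set.eq_univ_of_forall fun t => by
      obtain ⟨a, ha, e⟩ := hu t
      obtain ⟨r, hr, rfl⟩ := List.mem_map.1 ha
      simp only [Set.mem_iUnion]
      exact ⟨r, List.mem_toFinset.2 hr, t, e, one_mul t⟩)
  choose ψ0 _ hψ using hu
  have un : ∀ a b : K, a • u = b • u → a = b := fun a b e => smul_left_injective K u0 e
  let ψ : s.T →* K :=
    { toFun := ψ0
      map_one' := un _ _ (by rw [← hψ]; simp)
      map_mul' := fun a b => un _ _ (by
        have ha := hψ a
        have hb := hψ b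
        rw [toLin'_apply] at ha hb
        rw [← hψ, toLin'_apply, Subgroup.coe_mul, map_mul, ← mulVec_mulVec, hb, mulVec_smul, ha,
          smul_smul, mul_comm]) }
  let χ : P → s.T →* K := fun g => ψ.comp (cj s (⟨g, hP g g.2⟩ : s.H)⁻¹)
  have hχ : Function.Injective χ := fun g g' e => by
    by_contra hn
    obtain ⟨x, xH, h⟩ := hx g g.2 g' g'.2 fun e => hn (Subtype.ext e)
    obtain ⟨m, m0, -, hm⟩ := Subgroup.exists_pow_mem_of_index_ne_zero s.fin.index_ne_zero ⟨x, xH⟩
    have : (S r).Normal := ⟨fun a ha b => by rwa [comm s b a, mul_inv_cancel_right]⟩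
    let y : s.T := ⟨x ^ m, hm⟩
    let k : s.H := (⟨g, hP g g.2⟩ : s.H)⁻¹ * ⟨g', hP g' g'.2⟩
    have h1 := un _ _ ((hψ _).symm.trans ((S r).pow_index_mem y))
    have h2 := un _ _ ((hψ _).symm.trans ((S r).pow_index_mem (cj s k y)))
    have h3 := DFunLike.congr_fun e (cj s ⟨g', hP g' g'.2⟩ (y ^ (S r).index))
    have h4 : cj s (⟨g', hP g' g'.2⟩ : s.H)⁻¹ (cj s ⟨g', hP g' g'.2⟩ (y ^ (S r).index)) =
        y ^ (S r).index := Subtype.ext (by simp [cj, mul_assoc])
    have h5 : cj s (⟨g, hP g g.2⟩ : s.H)⁻¹ (cj s ⟨g', hP g' g'.2⟩ (y ^ (S r).index)) =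
        cj s k y ^ (S r).index := by
      rw [← map_pow]; exact Subtype.ext (by simp [cj, k, mul_assoc])
    change ψ0 _ = ψ0 _ at h3
    rw [h4, h5, h1, h2, ← map_pow] at h3
    have h6 := congrArg Subtype.val (s.inj (Units.ext ((algebraMap ℚ K).injective h3)))
    refine h (m * (S r).index) (Nat.mul_pos m0 (Nat.pos_of_ne_zero hr.index_ne_zero)) ?_
    simp only [cj, k, y, MonoidHom.coe_mk, OneHom.coe_mk, mul_left_inj, mul_right_inj,
      SubmonoidClass.coe_pow, ← pow_mul] at h6
    exact mul_inv_eq_iff_eq_mul.1 h6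
  have hi : LinearIndependent K fun g : P => ρ g *ᵥ u := by
    refine Fintype.linearIndependent_iff.2 fun a ha g => by_contra fun a0 => u0 ?_
    have h1 : ρ g *ᵥ u = 0 := funext fun i => by
      refine (mul_eq_zero.1 (Fintype.linearIndependent_iff.1
        ((linearIndependent_monoidHom s.T K).comp χ hχ) (fun g => a g * (ρ g *ᵥ u) i)
        (funext fun t => ?_) g)).resolve_left a0
      have h2 := congrFun (congrArg (ρ t *ᵥ ·) ha) i
      simp only [mulVec_sum, mulVec_smul, mulVec_zero] at h2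
      rw [Finset.sum_apply] at h2 ⊢
      refine (Finset.sum_congr rfl fun j _ => ?_).trans h2
      have h3 := congrArg (ρ j *ᵥ ·) (hψ (cj s (⟨j, hP j j.2⟩ : s.H)⁻¹ t))
      simp only [toLin'_apply, mulVec_mulVec, ← map_mul, mulVec_smul] at h3
      rw [show (j : G) * (cj s (⟨j, hP j j.2⟩ : s.H)⁻¹ t : G) = t * j by simp [cj, mul_assoc]] at h3
      rw [mulVec_mulVec, ← map_mul, h3]
      simp [χ, ψ, mul_comm, mul_assoc]
    have := congrArg (ρ (g : G)⁻¹ *ᵥ ·) h1
    simpa [mulVec_mulVec, ← map_mul] using this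
  simpa using hi.fintype_card_le_finrank

end Pool.Agent.MP_6a4325_al.H53
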